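import Pool.Agent.Helper42.KS.Goals

set_option autoImplicit false

/-!
# MP_40ec72_an, packet ST: from restricted weak type to strong type
-/

namespace Pool.Agent.Helper42.KS.PkST

open MeasureTheory
open scoped ENNReal NNReal

variable {k d : ℕ}

theorem hits_ge (E : Finset (Fin d → ℤ)) (x : Fin d → ℤ) (n : ℕ) :
    ((orth k d n).filter (fun y => x - y ∈ E)).card ≤ hits k E x n := by
  unfold hits
  refine Finset.card_le_card_of_injOn (fun y => x - y) ?_ ?_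
  · intro y hy
    obtain ⟨hy1, hy2⟩ := Finset.mem_filter.1 (Finset.mem_coe.1 hy)
    unfold orth at hy1
    rw [Finset.mem_filter, Fintype.mem_piFinset] at hy1
    refine Finset.mem_coe.2 (Finset.mem_filter.2 ⟨hy2, fun i => ?_, ?_⟩)
    · have := (Finset.mem_Icc.1 (hy1.1 i)).1
      simp only [Pi.sub_apply]
      linarith
    · simpa using hy1.2
  · intro a _ b _ hab
    simpa using hab

theorem pow_le_dyadic (t : ℝ≥0∞) {p : ℝ} (hp : 0 < p) :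
    t ^ p ≤ ∑' r : ℤ, ((2 : ℝ≥0∞) ^ (r + 1)) ^ p * (if (2 : ℝ≥0∞) ^ r < t then 1 else 0) := by
  rcases eq_or_ne t 0 with rfl | ht0
  · rw [ENNReal.zero_rpow_of_pos hp]
    exact zero_le
  rcases eq_or_ne t ⊤ with rfl | htop
  · by_contra hcon
    have h1 : (∑' r : ℤ, ((2 : ℝ≥0∞) ^ (r + 1)) ^ p *
        (if (2 : ℝ≥0∞) ^ r < ⊤ then 1 else 0)) ≠ ⊤ := fun h => hcon (by rw [h]; exact le_top)
    have h2 := ENNReal.finite_const_le_of_tsum_ne_top h1 one_ne_zero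
    refine Set.infinite_of_injective_forall_mem (f := fun n : ℕ => (n : ℤ)) Nat.cast_injective
      (fun n => ?_) h2
    have h3 : (2 : ℝ≥0∞) ^ (n : ℤ) < ⊤ := by
      rw [zpow_natCast]
      exact ENNReal.pow_lt_top ENNReal.ofNat_lt_top
    have h4 : (1 : ℝ≥0∞) ≤ (2 : ℝ≥0∞) ^ ((n : ℤ) + 1) := by
      rw [show ((n : ℤ) + 1) = ((n + 1 : ℕ) : ℤ) by push_cast; ring, zpow_natCast]
      exact one_le_pow₀ (by norm_num)
    change (1 : ℝ≥0∞) ≤ ((2 : ℝ≥0∞) ^ ((n : ℤ) + 1)) ^ p *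
      (if (2 : ℝ≥0∞) ^ (n : ℤ) < ⊤ then 1 else 0)
    rw [if_pos h3, mul_one]
    exact ENNReal.one_le_rpow h4 hp
  · obtain ⟨r, hr1, hr2⟩ := ENNReal.exists_mem_Ioc_zpow ht0 htop
      (show (1 : ℝ≥0∞) < 2 by norm_num) ENNReal.ofNat_ne_top
    refine le_trans ?_ (ENNReal.le_tsum r)
    rw [if_pos hr1, mul_one]
    exact ENNReal.rpow_le_rpow hr2 hp.le

theorem layers {f : (Fin d → ℤ) → ℝ≥0∞} (hf : ∀ x, f x ≠ ⊤) {E : ℤ → Finset (Fin d → ℤ)}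
    (hE : ∀ i x, x ∈ E i ↔ (2 : ℝ≥0∞) ^ i ≤ f x ∧ f x < (2 : ℝ≥0∞) ^ (i + 1)) (i₀ : ℤ)
    (z : Fin d → ℤ) :
    f z ≤ (2 : ℝ≥0∞) ^ i₀ + ∑' m : ℕ, (2 : ℝ≥0∞) ^ (i₀ + m + 1) *
      (if z ∈ E (i₀ + m) then 1 else 0) := by
  rcases lt_or_ge (f z) ((2 : ℝ≥0∞) ^ i₀) with h | h
  · exact h.le.trans le_self_add
  · have h0 : f z ≠ 0 := by
      intro h1
      rw [h1] at h
      exact (ENNReal.zpow_pos (by norm_num) ENNReal.ofNat_ne_top i₀).ne' (le_antisymm h zero_le)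
    obtain ⟨i, hi1, hi2⟩ := ENNReal.exists_mem_Ico_zpow h0 (hf z)
      (show (1 : ℝ≥0∞) < 2 by norm_num) ENNReal.ofNat_ne_top
    have h2 : i₀ ≤ i := by
      by_contra hcon
      have h3 : (2 : ℝ≥0∞) ^ (i + 1) ≤ (2 : ℝ≥0∞) ^ i₀ :=
        ENNReal.zpow_le_of_le (by norm_num) (by omega)
      exact absurd (hi2.trans_le h3) (not_lt.2 h)
    obtain ⟨m, hm⟩ : ∃ m : ℕ, i = i₀ + m := ⟨(i - i₀).toNat, by omega⟩
    subst hm
    refine le_trans ?_ le_add_self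
    refine le_trans ?_ (ENNReal.le_tsum m)
    rw [if_pos ((hE _ z).2 ⟨hi1, hi2⟩), mul_one]
    exact hi2.le

/-- the pointwise part -/
theorem key {f : (Fin d → ℤ) → ℝ≥0∞} (hf : ∀ x, f x ≠ ⊤) {E : ℤ → Finset (Fin d → ℤ)}
    (hE : ∀ i x, x ∈ E i ↔ (2 : ℝ≥0∞) ^ i ≤ f x ∧ f x < (2 : ℝ≥0∞) ^ (i + 1)) (κ : ℕ)
    (hκ : ∀ j n : ℕ, n < 2 ^ (j * k) → (orth k d n).card ≤ 2 ^ κ * 2 ^ (j * (d - k)))
    {lam : ℕ → ℝ} (hlam0 : ∀ m, 0 ≤ lam m)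
    (hlam : ∑' m : ℕ, (2 : ℝ≥0∞) ^ (m + 1) * ENNReal.ofReal (lam m) ≤ 1) (r : ℤ) (x : Fin d → ℤ)
    (h : (2 : ℝ≥0∞) ^ r < Mp k d f x) :
    ∃ m : ℕ, ∃ (j : ℕ) (n : ℤ), n < 2 ^ (j * k) ∧
      lam m * (2 : ℝ) ^ (j * (d - k)) < hits k (E (r - 1 - κ + m)) x n := by
  by_contra hcon
  push Not at hcon
  refine absurd h (not_lt.2 ?_)
  unfold Mp
  refine iSup_le fun j => iSup_le fun n => iSup_le fun hn => ?_
  have h2 : (2 : ℝ≥0∞) ^ (j * (d - k)) ≠ 0 := pow_ne_zero _ (by norm_num)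
  have h2' : (2 : ℝ≥0∞) ^ (j * (d - k)) ≠ ⊤ := ENNReal.pow_ne_top ENNReal.ofNat_ne_top
  rw [ENNReal.inv_mul_le_iff h2 h2']
  set i₀ : ℤ := r - 1 - κ with hi₀
  set D := j * (d - k) with hD
  have hadd : ∀ a b : ℤ, (2 : ℝ≥0∞) ^ (a + b) = (2 : ℝ≥0∞) ^ a * (2 : ℝ≥0∞) ^ b := fun a b =>
    ENNReal.zpow_add (by norm_num) ENNReal.ofNat_ne_top a b
  have h3 : ∑ y ∈ orth k d n, f (x - y) ≤ ∑ y ∈ orth k d n, ((2 : ℝ≥0∞) ^ i₀ +
      ∑' m : ℕ, (2 : ℝ≥0∞) ^ (i₀ + m + 1) * (if x - y ∈ E (i₀ + m) then 1 else 0)) :=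
    Finset.sum_le_sum fun y _ => layers hf hE i₀ (x - y)
  refine h3.trans ?_
  rw [Finset.sum_add_distrib, ← Summable.tsum_finsetSum (fun _ _ => ENNReal.summable)]
  have h4 : ∑ _y ∈ orth k d n, (2 : ℝ≥0∞) ^ i₀ ≤ 2 ^ D * (2 : ℝ≥0∞) ^ (r - 1) := by
    rw [Finset.sum_const, nsmul_eq_mul]
    have h5 : ((orth k d n).card : ℝ≥0∞) ≤ 2 ^ κ * 2 ^ D := by exact_mod_cast hκ j n hn
    calc ((orth k d n).card : ℝ≥0∞) * (2 : ℝ≥0∞) ^ i₀ ≤ (2 ^ κ * 2 ^ D) * (2 : ℝ≥0∞) ^ i₀ := by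
          gcongr
      _ = 2 ^ D * ((2 : ℝ≥0∞) ^ (κ : ℤ) * (2 : ℝ≥0∞) ^ i₀) := by
          rw [zpow_natCast]
          ring
      _ = 2 ^ D * (2 : ℝ≥0∞) ^ (r - 1) := by
          rw [← hadd, hi₀]
          congr 2
          ring
  have h5 : ∑' m : ℕ, ∑ y ∈ orth k d n, (2 : ℝ≥0∞) ^ (i₀ + m + 1) *
      (if x - y ∈ E (i₀ + m) then 1 else 0) ≤ 2 ^ D * (2 : ℝ≥0∞) ^ (r - 1) := by
    calc ∑' m : ℕ, ∑ y ∈ orth k d n, (2 : ℝ≥0∞) ^ (i₀ + m + 1) *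
          (if x - y ∈ E (i₀ + m) then 1 else 0)
        ≤ ∑' m : ℕ, 2 ^ D * (2 : ℝ≥0∞) ^ (r - 1) *
            ((2 : ℝ≥0∞) ^ (m + 1) * ENNReal.ofReal (lam m)) := by
          refine ENNReal.tsum_le_tsum fun m => ?_
          rw [← Finset.mul_sum, Finset.sum_boole]
          have h6 : (((orth k d n).filter (fun y => x - y ∈ E (i₀ + m))).card : ℝ≥0∞) ≤
              ENNReal.ofReal (lam m) * 2 ^ D := by
            have h7 : (((orth k d n).filter (fun y => x - y ∈ E (i₀ + m))).card : ℝ) ≤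
                lam m * 2 ^ D := by
              refine le_trans ?_ (hcon m j n (by exact_mod_cast hn))
              exact_mod_cast hits_ge _ _ _
            have h8 := ENNReal.ofReal_le_ofReal h7
            rw [ENNReal.ofReal_natCast, ENNReal.ofReal_mul (hlam0 m),
              ENNReal.ofReal_pow (by norm_num), ENNReal.ofReal_ofNat] at h8
            exact h8
          calc (2 : ℝ≥0∞) ^ (i₀ + m + 1) *
                (((orth k d n).filter (fun y => x - y ∈ E (i₀ + m))).card : ℝ≥0∞)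
              ≤ (2 : ℝ≥0∞) ^ (i₀ + m + 1) * (ENNReal.ofReal (lam m) * 2 ^ D) := by gcongr
            _ = (2 : ℝ≥0∞) ^ i₀ * (2 ^ D * ((2 : ℝ≥0∞) ^ (m + 1) * ENNReal.ofReal (lam m))) := by
                rw [show i₀ + (m : ℤ) + 1 = i₀ + ((m + 1 : ℕ) : ℤ) by push_cast; ring, hadd,
                  zpow_natCast]
                ring
            _ ≤ (2 : ℝ≥0∞) ^ (r - 1) *
                (2 ^ D * ((2 : ℝ≥0∞) ^ (m + 1) * ENNReal.ofReal (lam m))) := by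
                have h9 : (2 : ℝ≥0∞) ^ i₀ ≤ (2 : ℝ≥0∞) ^ (r - 1) :=
                  ENNReal.zpow_le_of_le (by norm_num) (by omega)
                gcongr
            _ = _ := by ring
      _ = 2 ^ D * (2 : ℝ≥0∞) ^ (r - 1) *
            ∑' m : ℕ, ((2 : ℝ≥0∞) ^ (m + 1) * ENNReal.ofReal (lam m)) := ENNReal.tsum_mul_left
      _ ≤ 2 ^ D * (2 : ℝ≥0∞) ^ (r - 1) * 1 := by gcongr
      _ = _ := mul_one _
  calc _ ≤ 2 ^ D * (2 : ℝ≥0∞) ^ (r - 1) + 2 ^ D * (2 : ℝ≥0∞) ^ (r - 1) := add_le_add h4 h5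
    _ = 2 ^ D * ((2 : ℝ≥0∞) ^ (1 : ℤ) * (2 : ℝ≥0∞) ^ (r - 1)) := by
        rw [zpow_one]
        ring
    _ = 2 ^ D * (2 : ℝ≥0∞) ^ r := by
        rw [← hadd]
        congr 2
        ring

/-- counting from restricted weak type -/
theorem cnt {C p₀ : ℝ} (hC : ∀ (lam : ℝ) (E F : Finset (Fin d → ℤ)), 0 < lam → lam ≤ 1 →
      (∀ x ∈ F, ∃ (j : ℕ) (n : ℤ), n < 2 ^ (j * k) ∧
        lam * (2 : ℝ) ^ (j * (d - k)) < hits k E x n) →
      (F.card : ℝ) ≤ C * lam ^ (-p₀) * E.card)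
    {lam : ℝ} (h0 : 0 < lam) (h1 : lam ≤ 1) (E : Finset (Fin d → ℤ)) (P : (Fin d → ℤ) → Prop)
    [DecidablePred P] (hP : ∀ x, P x → ∃ (j : ℕ) (n : ℤ), n < 2 ^ (j * k) ∧
      lam * (2 : ℝ) ^ (j * (d - k)) < hits k E x n) :
    ∑' x, (if P x then (1 : ℝ≥0∞) else 0) ≤ ENNReal.ofReal (|C| * lam ^ (-p₀)) * E.card := by
  rw [ENNReal.tsum_eq_iSup_sum]
  refine iSup_le fun s => ?_
  rw [Finset.sum_boole]
  have h2 := hC lam E (s.filter P) h0 h1 (fun x hx => hP x (Finset.mem_filter.1 hx).2)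
  have h5 : 0 ≤ lam ^ (-p₀) := Real.rpow_nonneg h0.le _
  have h3 : ((s.filter P).card : ℝ) ≤ |C| * lam ^ (-p₀) * E.card := by
    refine h2.trans ?_
    gcongr
    exact le_abs_self C
  have h4 := ENNReal.ofReal_le_ofReal h3
  rw [ENNReal.ofReal_natCast, ENNReal.ofReal_mul (by positivity), ENNReal.ofReal_natCast] at h4
  exact h4

theorem low {f : (Fin d → ℤ) → ℝ≥0∞} {E : ℤ → Finset (Fin d → ℤ)}
    (hE : ∀ i x, x ∈ E i ↔ (2 : ℝ≥0∞) ^ i ≤ f x ∧ f x < (2 : ℝ≥0∞) ^ (i + 1)) {p : ℝ}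
    (hp : 0 < p) : ∑' i : ℤ, ((2 : ℝ≥0∞) ^ i) ^ p * ((E i).card : ℝ≥0∞) ≤ ∑' x, f x ^ p := by
  have h1 : ∀ i, ((E i).card : ℝ≥0∞) = ∑' x, if x ∈ E i then 1 else 0 := fun i => by
    rw [tsum_eq_sum (s := E i) (fun x hx => if_neg hx),
      Finset.sum_congr rfl (fun x hx => if_pos hx)]
    simp
  calc ∑' i : ℤ, ((2 : ℝ≥0∞) ^ i) ^ p * ((E i).card : ℝ≥0∞)
      = ∑' i : ℤ, ∑' x, ((2 : ℝ≥0∞) ^ i) ^ p * (if x ∈ E i then 1 else 0) := by
        refine tsum_congr fun i => ?_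
        rw [h1, ENNReal.tsum_mul_left]
    _ = ∑' x, ∑' i : ℤ, ((2 : ℝ≥0∞) ^ i) ^ p * (if x ∈ E i then 1 else 0) := ENNReal.tsum_comm
    _ ≤ ∑' x, f x ^ p := ENNReal.tsum_le_tsum fun x => ?_
  by_cases hx : ∃ i, x ∈ E i
  · obtain ⟨i, hi⟩ := hx
    rw [tsum_eq_single i]
    · rw [if_pos hi, mul_one]
      exact ENNReal.rpow_le_rpow ((hE i x).1 hi).1 hp.le
    · intro j hj
      rw [if_neg, mul_zero]
      intro hj2
      rcases lt_or_gt_of_ne hj with h | h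
      · have h2 := ENNReal.zpow_le_of_le (show (1 : ℝ≥0∞) ≤ 2 by norm_num)
          (show j + 1 ≤ i by omega)
        exact absurd (((hE j x).1 hj2).2.trans_le (h2.trans ((hE i x).1 hi).1)) (lt_irrefl _)
      · have h2 := ENNReal.zpow_le_of_le (show (1 : ℝ≥0∞) ≤ 2 by norm_num)
          (show i + 1 ≤ j by omega)
        exact absurd (((hE i x).1 hi).2.trans_le (h2.trans ((hE j x).1 hj2).1)) (lt_irrefl _)
  · push Not at hx
    simp [hx]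

theorem zp (z : ℤ) (p : ℝ) : ((2 : ℝ≥0∞) ^ z) ^ p = (2 : ℝ≥0∞) ^ ((z : ℝ) * p) := by
  rw [← ENNReal.rpow_intCast, ← ENNReal.rpow_mul]

theorem two_add (a b : ℝ) : (2 : ℝ≥0∞) ^ (a + b) = (2 : ℝ≥0∞) ^ a * (2 : ℝ≥0∞) ^ b :=
  ENNReal.rpow_add a b (by norm_num) ENNReal.ofNat_ne_top

/-- packet `ST` -/
theorem thm : G_ST := by
  classical
  intro k d p₀ p hk hkd hp₀ hp hR hcard
  obtain ⟨C1, hC1⟩ := hcard
  obtain ⟨C0, hC0⟩ := hR
  obtain ⟨κ, hκ⟩ := pow_unbounded_of_one_lt C1 (one_lt_two : (1 : ℝ) < 2)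
  have hp₀' : 0 < p₀ := by linarith
  have hp' : 0 < p := by linarith
  set β : ℝ := (p / p₀ + 1) / 2 with hβ
  have hβ1 : 1 < β := by
    have : 1 < p / p₀ := (one_lt_div hp₀').2 hp
    rw [hβ]
    linarith
  have hβp : β * p₀ = (p + p₀) / 2 := by
    rw [hβ]
    field_simp
  set q : ℝ := (2 : ℝ) ^ (-(β - 1)) with hq
  have hq0 : 0 < q := by positivity
  have hq1 : q < 1 := Real.rpow_lt_one_of_one_lt_of_neg one_lt_two (by linarith)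
  set c : ℝ := (1 - q) / 2 with hc
  have hc0 : 0 < c := by rw [hc]; linarith
  have hc1 : c ≤ 1 := by rw [hc]; linarith
  let lam : ℕ → ℝ := fun m => c * (2 : ℝ) ^ (-(β * m))
  have hlam0 : ∀ m, 0 < lam m := fun m => by positivity
  have hlam1 : ∀ m, lam m ≤ 1 := fun m => by
    have h1 : (2 : ℝ) ^ (-(β * m)) ≤ 1 :=
      Real.rpow_le_one_of_one_le_of_nonpos one_le_two (by
        have : 0 ≤ β * m := by positivity
        linarith)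
    exact mul_le_one₀ hc1 (by positivity) h1
  have hlamS : ∑' m : ℕ, (2 : ℝ≥0∞) ^ (m + 1) * ENNReal.ofReal (lam m) ≤ 1 := by
    have h1 : ∀ m : ℕ, (2 : ℝ≥0∞) ^ (m + 1) * ENNReal.ofReal (lam m) =
        ENNReal.ofReal ((1 - q) * q ^ m) := by
      intro m
      have h2 : (2 : ℝ≥0∞) ^ (m + 1) = ENNReal.ofReal ((2 : ℝ) ^ (m + 1)) := by
        rw [ENNReal.ofReal_pow (by norm_num), ENNReal.ofReal_ofNat]
      rw [h2, ← ENNReal.ofReal_mul (by positivity)]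
      congr 1
      have h3 : q ^ m = (2 : ℝ) ^ m * (2 : ℝ) ^ (-(β * m)) := by
        rw [hq, ← Real.rpow_natCast, ← Real.rpow_mul (by norm_num), ← Real.rpow_natCast,
          ← Real.rpow_add (by norm_num)]
        congr 1
        ring
      rw [h3]
      simp only [lam]
      rw [hc, pow_succ]
      ring
    have h4 : HasSum (fun m : ℕ => (1 - q) * q ^ m) ((1 - q) * (1 - q)⁻¹) :=
      (hasSum_geometric_of_lt_one hq0.le hq1).mul_left _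
    rw [mul_inv_cancel₀ (by linarith)] at h4
    rw [tsum_congr h1, ← ENNReal.ofReal_tsum_of_nonneg (fun m => by
      have : 0 < 1 - q := by linarith
      positivity) h4.summable, h4.tsum_eq, ENNReal.ofReal_one]
  have hκ' : ∀ j n : ℕ, n < 2 ^ (j * k) → (orth k d n).card ≤ 2 ^ κ * 2 ^ (j * (d - k)) := by
    intro j n hn
    have h1 : ((orth k d n).card : ℝ) ≤ 2 ^ κ * 2 ^ (j * (d - k)) :=
      (hC1 j n hn).trans (by gcongr)
    exact_mod_cast h1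
  set K1 : ℝ≥0∞ := ENNReal.ofReal (|C0| * c ^ (-p₀)) with hK1
  set ρ : ℝ≥0∞ := (2 : ℝ≥0∞) ^ (β * p₀ - p) with hρ
  have hρ1 : ρ < 1 := by
    rw [hρ]
    refine ENNReal.rpow_lt_one_of_one_lt_of_neg (by norm_num) ?_
    rw [hβp]
    linarith
  set K2 : ℝ≥0∞ := (2 : ℝ≥0∞) ^ (((κ : ℝ) + 2) * p) with hK2
  set C : ℝ≥0∞ := K1 * K2 * (1 - ρ)⁻¹ + 1 with hC
  have hCtop : C ≠ ⊤ := by
    refine ENNReal.add_ne_top.2 ⟨ENNReal.mul_ne_top (ENNReal.mul_ne_top ENNReal.ofReal_ne_top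
      (ENNReal.rpow_ne_top_of_nonneg (by positivity) ENNReal.ofNat_ne_top)) ?_, ENNReal.one_ne_top⟩
    exact ENNReal.inv_ne_top.2 (tsub_pos_of_lt hρ1).ne'
  refine ⟨C.toNNReal, fun f => ?_⟩
  rw [ENNReal.coe_toNNReal hCtop]
  by_cases hS : ∑' x, (f x) ^ p = ⊤
  · rw [hS, ENNReal.mul_top]
    · exact le_top
    · exact (lt_of_lt_of_le one_pos (le_add_self : (1 : ℝ≥0∞) ≤ C)).ne'
  have hf : ∀ x, f x ≠ ⊤ := fun x hx => hS (by
    refine top_unique ?_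
    refine le_trans ?_ (ENNReal.le_tsum x)
    rw [hx, ENNReal.top_rpow_of_pos hp'])
  have hfin : ∀ i : ℤ, {x | (2 : ℝ≥0∞) ^ i ≤ f x ∧ f x < (2 : ℝ≥0∞) ^ (i + 1)}.Finite := by
    intro i
    have h1 : ((2 : ℝ≥0∞) ^ i) ^ p ≠ 0 :=
      (ENNReal.rpow_pos (ENNReal.zpow_pos (by norm_num) ENNReal.ofNat_ne_top i)
        (ENNReal.zpow_ne_top (by norm_num) ENNReal.ofNat_ne_top i)).ne'
    refine (ENNReal.finite_const_le_of_tsum_ne_top hS h1).subset fun x hx => ?_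
    exact ENNReal.rpow_le_rpow hx.1 hp'.le
  let E : ℤ → Finset (Fin d → ℤ) := fun i => (hfin i).toFinset
  have hE : ∀ i x, x ∈ E i ↔ (2 : ℝ≥0∞) ^ i ≤ f x ∧ f x < (2 : ℝ≥0∞) ^ (i + 1) := fun i x => by
    simp only [E, Set.Finite.mem_toFinset, Set.mem_ofPred_eq]
  have hcount : ∀ r : ℤ, ∑' x, (if (2 : ℝ≥0∞) ^ r < Mp k d f x then (1 : ℝ≥0∞) else 0) ≤
      ∑' m : ℕ, K1 * (2 : ℝ≥0∞) ^ (β * p₀ * m) * ((E (r - 1 - κ + m)).card : ℝ≥0∞) := by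
    intro r
    let P : ℕ → (Fin d → ℤ) → Prop := fun m x => ∃ (j : ℕ) (n : ℤ), n < 2 ^ (j * k) ∧
      lam m * (2 : ℝ) ^ (j * (d - k)) < hits k (E (r - 1 - κ + m)) x n
    calc ∑' x, (if (2 : ℝ≥0∞) ^ r < Mp k d f x then (1 : ℝ≥0∞) else 0)
        ≤ ∑' x, ∑' m : ℕ, (if P m x then (1 : ℝ≥0∞) else 0) := by
          refine ENNReal.tsum_le_tsum fun x => ?_
          split_ifs with h
          · obtain ⟨m, hm⟩ := key hf hE κ hκ' (fun m => (hlam0 m).le) hlamS r x h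
            refine le_trans ?_ (ENNReal.le_tsum m)
            rw [if_pos hm]
          · exact zero_le
      _ = ∑' m : ℕ, ∑' x, (if P m x then (1 : ℝ≥0∞) else 0) := ENNReal.tsum_comm
      _ ≤ _ := by
          refine ENNReal.tsum_le_tsum fun m => ?_
          refine (cnt hC0 (hlam0 m) (hlam1 m) (E (r - 1 - κ + m)) (P m) fun x hx => hx).trans
            (le_of_eq ?_)
          congr 1
          have h1 : lam m ^ (-p₀) = c ^ (-p₀) * (2 : ℝ) ^ (β * p₀ * m) := by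
            simp only [lam]
            rw [Real.mul_rpow hc0.le (by positivity), ← Real.rpow_mul (by norm_num)]
            congr 2
            ring
          rw [h1, ← mul_assoc, ENNReal.ofReal_mul (by positivity),
            ← ENNReal.ofReal_rpow_of_pos (by norm_num), ENNReal.ofReal_ofNat]
  calc ∑' x, (Mp k d f x) ^ p
      ≤ ∑' x, ∑' r : ℤ, ((2 : ℝ≥0∞) ^ (r + 1)) ^ p *
          (if (2 : ℝ≥0∞) ^ r < Mp k d f x then 1 else 0) :=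
        ENNReal.tsum_le_tsum fun x => pow_le_dyadic _ hp'
    _ = ∑' r : ℤ, ∑' x, ((2 : ℝ≥0∞) ^ (r + 1)) ^ p *
          (if (2 : ℝ≥0∞) ^ r < Mp k d f x then 1 else 0) := ENNReal.tsum_comm
    _ ≤ ∑' r : ℤ, ∑' m : ℕ, ((2 : ℝ≥0∞) ^ (r + 1)) ^ p *
          (K1 * (2 : ℝ≥0∞) ^ (β * p₀ * m) * ((E (r - 1 - κ + m)).card : ℝ≥0∞)) := by
        refine ENNReal.tsum_le_tsum fun r => ?_
        rw [ENNReal.tsum_mul_left, ENNReal.tsum_mul_left]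
        gcongr
        exact hcount r
    _ = ∑' m : ℕ, ∑' r : ℤ, ((2 : ℝ≥0∞) ^ (r + 1)) ^ p *
          (K1 * (2 : ℝ≥0∞) ^ (β * p₀ * m) * ((E (r - 1 - κ + m)).card : ℝ≥0∞)) :=
        ENNReal.tsum_comm
    _ = ∑' m : ℕ, ∑' i : ℤ, (K1 * K2) * (ρ ^ m * (((2 : ℝ≥0∞) ^ i) ^ p *
          ((E i).card : ℝ≥0∞))) := by
        refine tsum_congr fun m => ?_
        rw [← (Equiv.addRight (1 + (κ : ℤ) - m)).tsum_eq]
        refine tsum_congr fun i => ?_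
        simp only [Equiv.coe_addRight]
        rw [show i + (1 + (κ : ℤ) - m) - 1 - κ + m = i by ring, zp, zp, hK2, hρ,
          ← ENNReal.rpow_natCast, ← ENNReal.rpow_mul]
        have h1 : (2 : ℝ≥0∞) ^ (((i + (1 + (κ : ℤ) - m) + 1 : ℤ) : ℝ) * p) *
            (2 : ℝ≥0∞) ^ (β * p₀ * m) = (2 : ℝ≥0∞) ^ (((κ : ℝ) + 2) * p) *
            ((2 : ℝ≥0∞) ^ ((β * p₀ - p) * m) * (2 : ℝ≥0∞) ^ ((i : ℝ) * p)) := by
          rw [← two_add, ← two_add, ← two_add]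
          congr 1
          push_cast
          ring
        calc _ = K1 * ((2 : ℝ≥0∞) ^ (((i + (1 + (κ : ℤ) - m) + 1 : ℤ) : ℝ) * p) *
            (2 : ℝ≥0∞) ^ (β * p₀ * m)) * ((E i).card : ℝ≥0∞) := by ring
          _ = _ := by
            rw [h1]
            ring
    _ = (K1 * K2) * ((∑' m : ℕ, ρ ^ m) *
          ∑' i : ℤ, (((2 : ℝ≥0∞) ^ i) ^ p * ((E i).card : ℝ≥0∞))) := by
        rw [← ENNReal.tsum_mul_right, ← ENNReal.tsum_mul_left]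
        refine tsum_congr fun m => ?_
        rw [← ENNReal.tsum_mul_left, ← ENNReal.tsum_mul_left]
    _ ≤ (K1 * K2) * ((1 - ρ)⁻¹ * ∑' x, f x ^ p) := by
        rw [ENNReal.tsum_geometric]
        gcongr
        exact low hE hp'
    _ = (K1 * K2 * (1 - ρ)⁻¹) * ∑' x, f x ^ p := by ring
    _ ≤ C * ∑' x, f x ^ p := by
        gcongr
        exact le_self_add

end Pool.Agent.Helper42.KS.PkST
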